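import Pool.Agent.Q31.RA.Stm

set_option autoImplicit false

/-! Project RA of helper31, job RA-RE (helper98). -/

namespace Pool.Agent.Q98.RA

open Pool.Agent.Q31.RA

/-- a virtually cyclic group is amenable -/
theorem am_vcyc (h2 : S_Ext) (h3 : S_Fin) (h5 : S_Solv) (C : Type) [Group C] (hC : VCyc C) :
    Am C := by
  obtain ⟨c, hc⟩ := hC
  have hfi : (Subgroup.zpowers c).normalCore.FiniteIndex := inferInstance
  refine h2 C (C ⧸ (Subgroup.zpowers c).normalCore)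
    (QuotientGroup.mk' (Subgroup.zpowers c).normalCore) ?_ ?_
  · apply h5
    apply Group.isSolvable_of_comm
    rintro ⟨a, ha⟩ ⟨b, hb⟩
    rw [QuotientGroup.ker_mk'] at ha hb
    have ha' := Subgroup.normalCore_le _ ha
    have hb' := Subgroup.normalCore_le _ hb
    obtain ⟨m, rfl⟩ := Subgroup.mem_zpowers_iff.1 ha'
    obtain ⟨n, rfl⟩ := Subgroup.mem_zpowers_iff.1 hb'
    apply Subtype.ext
    show c ^ m * c ^ n = c ^ n * c ^ m
    rw [← zpow_add, ← zpow_add, add_comm]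
  · apply h3
    infer_instance

/-- the kernel of the induced action -/
theorem kk_ker {C G : Type} [Group C] [Group G] (K : Subgroup G) (ρ : K →* C)
    (s : G ⧸ K → G) (hs : ∀ f, ((s f : G) : G ⧸ K) = f) (k : G)
    (hk : kk K s hs (fun _ : Unit => ρ) k = 1) : ∃ h : k ∈ K, ρ ⟨k, h⟩ = 1 := by
  have h1 := congrArg (fun π : Equiv.Perm (((G ⧸ K) × Unit) × C) =>
    π ((((1 : G) : G ⧸ K), ()), 1)) hk
  simp only [kk_apply, Equiv.Perm.coe_one, id] at h1
  have h2 := congrArg (fun p => p.1.1) h1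
  have h3 := congrArg (fun p => p.2) h1
  simp only [mul_one] at h2 h3
  have h4 : k ∈ K := by
    have : ((k : G) : G ⧸ K) = ((1 : G) : G ⧸ K) := by
      rw [← h2]
      show _ = (((k * 1 : G)) : G ⧸ K)
      rw [mul_one]
    have h5 := QuotientGroup.eq.1 this
    rw [mul_one] at h5
    exact K.inv_mem_iff.1 h5
  refine ⟨h4, ?_⟩
  have h6 : s ((1 : G) : G ⧸ K) ∈ K := by
    have h7 := QuotientGroup.eq.1 (hs ((1 : G) : G ⧸ K))
    rw [mul_one] at h7
    exact K.inv_mem_iff.1 h7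
  have h8 : ∀ (y : G) (hy : y ∈ K), y = (s ((1 : G) : G ⧸ K))⁻¹ * k * s ((1 : G) : G ⧸ K) →
      ρ ⟨y, hy⟩ = (ρ ⟨_, h6⟩)⁻¹ * ρ ⟨k, h4⟩ * ρ ⟨_, h6⟩ := by
    intro y hy e
    rw [← map_inv, ← map_mul, ← map_mul]
    congr 1
    exact Subtype.ext e
  have h9 := h8 _ (kk_mem K s hs k ((1 : G) : G ⧸ K)) (by rw [h2])
  rw [h3] at h9
  have h10 : ρ ⟨k, h4⟩ = ρ ⟨_, h6⟩ * ((ρ ⟨_, h6⟩)⁻¹ * ρ ⟨k, h4⟩ * ρ ⟨_, h6⟩) * (ρ ⟨_, h6⟩)⁻¹ := by
    group
  rw [h10, ← h9]
  group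

theorem t_Red (h1 : S_Sub) (h2 : S_Ext) (h3 : S_Fin) (h4 : S_Prod) (h5 : S_Solv) (h6 : S_Mono) :
    S_Red := by
  intro C G _ _ j hC hVR hRes S hS
  obtain ⟨K, hKfi, hjK, ρ, hρ⟩ := hVR
  have hCam : Am C := am_vcyc h2 h3 h5 C hC
  -- the list
  have hL : ∀ S : List G, (∀ g ∈ S, g ∉ j.range) → ∃ (B : Type) (_ : Group B) (ψ : G →* B),
      Am B ∧ ∀ g ∈ S, ∀ h : g ∈ K, ψ ((j (ρ ⟨g, h⟩))⁻¹ * g) ≠ 1 := by
    intro S
    induction S with
    | nil =>
      intro _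
      exact ⟨Unit, inferInstance, 1, h3 _ inferInstance, by simp⟩
    | cons g S ih =>
      intro hS
      obtain ⟨B, _, ψ, hB, hψ⟩ := ih fun x hx => hS x (List.mem_cons_of_mem _ hx)
      by_cases hg : g ∈ K
      · have hne : (j (ρ ⟨g, hg⟩))⁻¹ * g ≠ 1 := by
          intro e
          apply hS g List.mem_cons_self
          exact ⟨ρ ⟨g, hg⟩, inv_mul_eq_one.1 e⟩
        obtain ⟨A', _, f, hA', hf⟩ := hRes _ hne
        refine ⟨B × A', inferInstance, ψ.prod f, h4 _ _ hB hA', ?_⟩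
        intro x hx h e
        rcases List.mem_cons.1 hx with rfl | hx
        · exact hf (Prod.ext_iff.1 e).2
        · exact hψ x hx h (Prod.ext_iff.1 e).1
      · refine ⟨B, inferInstance, ψ, hB, ?_⟩
        intro x hx h
        rcases List.mem_cons.1 hx with rfl | hx
        · exact absurd h hg
        · exact hψ x hx h
  obtain ⟨B, _, ψ, hB, hψ⟩ := hL S hS
  have hs : ∀ f : G ⧸ K, ((Quotient.out f : G) : G ⧸ K) = f := fun f => QuotientGroup.out_eq' f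
  let π₀ : G →* mono ((G ⧸ K) × Unit) C :=
    (kk K Quotient.out hs (fun _ : Unit => ρ)).codRestrict _ (fun a => kk_mono K _ hs _ a)
  have hπ₀ : ∀ k, π₀ k = 1 → ∃ h : k ∈ K, ρ ⟨k, h⟩ = 1 := by
    intro k hk
    exact kk_ker K ρ _ hs k (congrArg Subtype.val hk)
  let F₀ : G →* (mono ((G ⧸ K) × Unit) C) × B := π₀.prod ψ
  have hfin : Finite ((G ⧸ K) × Unit) := inferInstance
  have hAm : Am F₀.range := by
    refine h1 _ ((mono ((G ⧸ K) × Unit) C) × B) F₀.range.subtype Subtype.val_injective ?_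
    exact h4 _ _ (h6 _ _ hfin hCam) hB
  have hker : ∀ k, F₀.rangeRestrict k = 1 → (∃ h : k ∈ K, ρ ⟨k, h⟩ = 1) ∧ ψ k = 1 := by
    intro k hk
    have e := congrArg Subtype.val hk
    exact ⟨hπ₀ k (Prod.ext_iff.1 e).1, (Prod.ext_iff.1 e).2⟩
  have hsurj : Function.Surjective F₀.rangeRestrict := F₀.rangeRestrict_surjective
  refine ⟨F₀.range, inferInstance, F₀.rangeRestrict, hAm, ?_, ?_⟩
  · have hfi' : (K.map F₀.rangeRestrict).FiniteIndex := by
      refine ⟨fun h0 => ?_⟩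
      have h7 := Subgroup.index_map_dvd K hsurj
      rw [h0] at h7
      exact hKfi.index_ne_zero (Nat.eq_zero_of_zero_dvd h7)
    let q : K →* K.map F₀.rangeRestrict := F₀.rangeRestrict.subgroupMap K
    have hq : Function.Surjective q := F₀.rangeRestrict.subgroupMap_surjective K
    have hqker : q.ker ≤ ρ.ker := by
      intro k hk
      have e : F₀.rangeRestrict k.1 = 1 := congrArg Subtype.val (MonoidHom.mem_ker.1 hk)
      obtain ⟨⟨h8, h9⟩, _⟩ := hker _ e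
      exact MonoidHom.mem_ker.2 h9
    let ρ' : K.map F₀.rangeRestrict →* C :=
      q.liftOfRightInverse (Function.surjInv hq) (Function.rightInverse_surjInv hq) ⟨ρ, hqker⟩
    refine ⟨K.map F₀.rangeRestrict, hfi', fun c => ⟨j c, hjK c, rfl⟩, ρ', ?_⟩
    intro c
    have h10 : ρ' (q ⟨j c, hjK c⟩) = ρ ⟨j c, hjK c⟩ :=
      MonoidHom.liftOfRightInverse_comp_apply q _ _ ⟨ρ, hqker⟩ _
    exact h10.trans (hρ c)
  · rintro g hg ⟨c, hc⟩
    have h7 : F₀.rangeRestrict (g⁻¹ * j c) = 1 := by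
      rw [map_mul, map_inv, inv_mul_eq_one]
      exact hc.symm
    obtain ⟨⟨h8, h9⟩, h10⟩ := hker _ h7
    have hgK : g ∈ K := by
      have : g = j c * (g⁻¹ * j c)⁻¹ := by group
      rw [this]
      exact K.mul_mem (hjK c) (K.inv_mem h8)
    have h11 : ρ ⟨g, hgK⟩ = c := by
      have e : (⟨g, hgK⟩ : K) = ⟨j c, hjK c⟩ * (⟨g⁻¹ * j c, h8⟩ : K)⁻¹ := by
        apply Subtype.ext
        show g = j c * (g⁻¹ * j c)⁻¹
        group
      rw [e, map_mul, map_inv, h9, hρ, inv_one, mul_one]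
    apply hψ g hg hgK
    rw [h11]
    have : (j c)⁻¹ * g = (g⁻¹ * j c)⁻¹ := by group
    rw [this, map_inv, h10, inv_one]

end Pool.Agent.Q98.RA
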